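import Pool.Agent.FHQ.StmtsG

/-!
# Squad FHQ, row FHK: the property `FHP_{2^d}`
-/

noncomputable section

namespace Pool.Agent.FHQ.H9

theorem fhk (h1 : Fh1Stmt) (h2 : Fh2Stmt) : FhkStmt := by
  intro d
  induction d with
  | zero =>
    intro n S _
    rw [pow_zero]
    intro α hα
    refine ⟨α, hα, 0, ?_⟩
    intro p _ K _ A _ N b h
    refine ⟨Fin.elim0, ?_⟩
    have h3 : {f : Fin 1 → Fin N | ∃ x : Fin 0 → K, ∀ i, S p K A (Fin.append x (b (f i)))} =
        (fun (i : Fin N) (_ : Fin 1) => i) ''
          {i : Fin N | S p K A (Fin.append Fin.elim0 (b i))} := by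
      ext f
      constructor
      · rintro ⟨x, hx⟩
        refine ⟨f 0, ?_, ?_⟩
        · have h4 : x = Fin.elim0 := Subsingleton.elim _ _
          have h5 := hx 0
          rw [h4] at h5
          exact h5
        · funext j
          rw [Subsingleton.elim j 0]
      · rintro ⟨i, hi, rfl⟩
        exact ⟨Fin.elim0, fun _ => hi⟩
    rw [h3, Set.ncard_image_of_injective, pow_one] at h
    · exact h
    · intro i j hij
      exact congrFun hij 0
  | succ d ih =>
    intro n S hS
    rw [pow_succ']
    exact h2 d (2 ^ d) ih h1 n S hS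

end Pool.Agent.FHQ.H9
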