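import Pool.Agent.FHQ.StmtsZ

/-!
# Squad FHQ, row ZSF: consistency
-/

open scoped BigOperators

noncomputable section

namespace Pool.Agent.FHQ.H9

/-- renaming of the variables -/
theorem ren {n : ℕ} (ψ : F1 n) : ∀ {m : ℕ} (σ : Fin n → Fin m), ∃ ψ' : F1 m,
    ∀ (K : Type) [Field K] (R : K → K → Prop) (x : Fin m → K),
      ψ'.real K R x ↔ ψ.real K R (fun i => x (σ i)) := by
  induction ψ with
  | eq P =>
    intro m σ
    refine ⟨F1.eq (MvPolynomial.rename σ P), fun K _ R x => ?_⟩
    simp only [F1.real, MvPolynomial.aeval_rename]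
    rfl
  | rv P Q =>
    intro m σ
    refine ⟨F1.rv (MvPolynomial.rename σ P) (MvPolynomial.rename σ Q), fun K _ R x => ?_⟩
    simp only [F1.real, MvPolynomial.aeval_rename]
    rfl
  | not φ ih =>
    intro m σ
    obtain ⟨φ', h⟩ := ih σ
    exact ⟨F1.not φ', fun K _ R x => not_congr (h K R x)⟩
  | and φ ψ ih1 ih2 =>
    intro m σ
    obtain ⟨φ', h1⟩ := ih1 σ
    obtain ⟨ψ', h2⟩ := ih2 σ
    exact ⟨F1.and φ' ψ', fun K _ R x => and_congr (h1 K R x) (h2 K R x)⟩
  | ex φ ih =>
    intro m σ
    obtain ⟨φ', h⟩ := ih (Fin.cons 0 (fun i => (σ i).succ))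
    refine ⟨F1.ex φ', fun K _ R x => exists_congr fun a => ?_⟩
    rw [h]
    have h1 : (fun i => (Fin.cons a x : Fin (m + 1) → K)
        ((Fin.cons 0 (fun i => (σ i).succ) : Fin (_ + 1) → Fin (m + 1)) i)) =
        Fin.cons a (fun i => x (σ i)) := by
      funext i
      refine Fin.cases ?_ (fun i => ?_) i
      · simp
      · simp
    rw [h1]

theorem zsf (zlf : ZlfStmt) : ZsfStmt := by
  classical
  intro dK dR nK nR d φ hd
  obtain ⟨ψ₀, hψ₀⟩ := zlf _ _ φ
  let p1 : Fin dK → Fin d := fun i => ⟨i, by have := i.2; omega⟩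
  let p2 : Fin dR → Fin d := fun i => ⟨dK + i, by have := i.2; omega⟩
  let σ : Fin ((dK + nK) + (dR + nR)) → Fin (d + (nK + nR)) :=
    Fin.append (Fin.append (fun i => Fin.castAdd (nK + nR) (p1 i))
      (fun i => Fin.natAdd d (Fin.castAdd nR i)))
      (Fin.append (fun i => Fin.castAdd (nK + nR) (p2 i)) (fun i => Fin.natAdd d (Fin.natAdd nK i)))
  obtain ⟨ψ₁, hψ₁⟩ := ren ψ₀ σ
  have hσ : ∀ (K : Type) (x : Fin d → K) (b : Fin nK → K) (c : Fin nR → K),
      (fun i => Fin.append x (Fin.append b c) (σ i)) =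
      Fin.append (Fin.append (fun i => x (p1 i)) b) (Fin.append (fun i => x (p2 i)) c) := by
    intro K x b c
    funext i
    refine Fin.addCases (fun i => ?_) (fun i => ?_) i
    · rw [Fin.append_left]
      refine Fin.addCases (fun i => ?_) (fun i => ?_) i
      · simp [σ]
      · simp [σ]
    · rw [Fin.append_right]
      refine Fin.addCases (fun i => ?_) (fun i => ?_) i
      · simp [σ]
      · simp [σ]
  refine ⟨F1.and (F1.not (F1.eq (∏ j : Fin dR,
    MvPolynomial.X (Fin.castAdd (nK + nR) (p2 j))))) ψ₁, ?_⟩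
  intro K _ mx hG ι b c
  have hreal : ∀ (x : Fin d → K) (i : ι),
      (F1.and (F1.not (F1.eq (∏ j : Fin dR,
        MvPolynomial.X (Fin.castAdd (nK + nR) (p2 j))))) ψ₁).real K (Em mx)
        (Fin.append x (Fin.append (b i) (fun j => (c i j : K)))) ↔
      (∀ j, x (p2 j) ≠ 0) ∧ ψ₀.real K (Em mx) (Fin.append (Fin.append (fun i => x (p1 i)) (b i))
        (Fin.append (fun i => x (p2 i)) (fun j => (c i j : K)))) := by
    intro x i
    refine and_congr ?_ ?_
    · change ¬ (MvPolynomial.aeval (Fin.append x (Fin.append (b i) (fun j => (c i j : K))))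
        (∏ j : Fin dR, MvPolynomial.X (Fin.castAdd (nK + nR) (p2 j)) : MvPolynomial _ ℤ) = 0) ↔ _
      rw [map_prod]
      simp only [MvPolynomial.aeval_X, Fin.append_left]
      rw [Finset.prod_eq_zero_iff]
      simp
    · rw [hψ₁, hσ]
  simp only [hreal]
  have hcoe : ∀ (u : Fin dR → Kˣ) (i : ι),
      (Fin.append (fun j => (u j : K)) (fun j => (c i j : K)) : Fin (dR + nR) → K) =
      fun j => ((Fin.append u (c i) j : Kˣ) : K) := by
    intro u i
    funext j
    refine Fin.addCases (fun j => ?_) (fun j => ?_) j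
    · simp
    · simp
  have hrv : ∀ (u : Fin dR → Kˣ) (i : ι),
      (Fin.append (fun j => rv K mx (u j)) (fun j => rv K mx (c i j)) : Fin (dR + nR) → RV K mx) =
      fun j => rv K mx (Fin.append u (c i) j) := by
    intro u i
    funext j
    refine Fin.addCases (fun j => ?_) (fun j => ?_) j
    · simp
    · simp
  constructor
  · rintro ⟨x, ξ, h⟩
    have hu : ∀ j, ∃ u : Kˣ, rv K mx u = ξ j := fun j => Quotient.exists_rep (ξ j)
    choose u hu using hu
    let x' : Fin d → K := fun i => if h : (i : ℕ) < dK then x ⟨i, h⟩ else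
      if h2 : (i : ℕ) - dK < dR then (u ⟨(i : ℕ) - dK, h2⟩ : K) else 0
    have hx1 : (fun i => x' (p1 i)) = x := by
      funext i
      have h1 : ((p1 i : Fin d) : ℕ) < dK := i.2
      simp only [x']
      rw [dif_pos h1]
    have hx2 : ∀ j, x' (p2 j) = (u j : K) := by
      intro j
      have h1 : ¬ ((p2 j : Fin d) : ℕ) < dK := by
        simp only [p2]
        omega
      have h2 : ((p2 j : Fin d) : ℕ) - dK < dR := by
        have := j.2
        simp only [p2]
        omega
      simp only [x']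
      rw [dif_neg h1, dif_pos h2]
      congr 2
      apply Fin.ext
      simp only [p2]
      omega
    refine ⟨x', fun i => ⟨fun j => ?_, ?_⟩⟩
    · rw [hx2]
      exact (u j).ne_zero
    · have h1 := h i
      have h2 : (Fin.append ξ (fun j => rv K mx (c i j)) : Fin (dR + nR) → RV K mx) =
          fun j => rv K mx (Fin.append u (c i) j) := by
        rw [← hrv u i]
        congr 1
        funext j
        exact (hu j).symm
      rw [h2, hψ₀ K mx hG] at h1
      rw [hx1]
      have h3 : (fun i => x' (p2 i)) = fun j => (u j : K) := funext hx2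
      rw [h3, hcoe]
      exact h1
  · rintro ⟨x, h⟩
    let u : Fin dR → Kˣ := fun j => if hx : x (p2 j) ≠ 0 then Units.mk0 _ hx else 1
    refine ⟨fun i => x (p1 i), fun j => rv K mx (u j), fun i => ?_⟩
    obtain ⟨h1, h2⟩ := h i
    have h3 : (fun i => x (p2 i)) = fun j => (u j : K) := by
      funext j
      simp only [u]
      rw [dif_pos (h1 j), Units.val_mk0]
    rw [h3, hcoe] at h2
    rw [hrv u i, hψ₀ K mx hG]
    exact h2

end Pool.Agent.FHQ.H9
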